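import Pool.Agent.R700.HN2

set_option autoImplicit false

namespace Pool.Agent.Results.MP_6883a6_al.RankFormula

open MonoidAlgebra Pool.Agent.R700.Fox Pool.Agent.R700.HN2

universe u v

noncomputable section

/-- `N` is a free module over `R` with a basis of `m` elements. -/
def HasRank (R : Type u) (N : Type v) [Ring R] [AddCommGroup N] [Module R N] (m : ℕ) : Prop :=
  Nonempty (Module.Basis (Fin m) R N)

/-- The right submodule `M` of `R ^ d` is algebraic: no proper free direct summand of `R ^ d`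
contains `M`. -/
def IsAlgebraic {R : Type u} [Ring R] {d : ℕ} (M : Submodule Rᵐᵒᵖ (Fin d → R)) : Prop :=
  ∀ P Q : Submodule Rᵐᵒᵖ (Fin d → R), IsCompl P Q → Module.Free Rᵐᵒᵖ P → M ≤ P → P = ⊤

/-- The intersection of the right submodule `M` of `K[F] ^ d` with `K[H] ^ d`, for a subgroup `H`
of `F`, as a right `K[H]`-submodule of `K[H] ^ d`. -/
def inter {K : Type u} [Field K] {F : Type} [Group F] {d : ℕ}
    (M : Submodule (MonoidAlgebra K F)ᵐᵒᵖ (Fin d → MonoidAlgebra K F)) (H : Subgroup F) :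
    Submodule (MonoidAlgebra K H)ᵐᵒᵖ (Fin d → MonoidAlgebra K H) where
  carrier := {w | (fun i => mapDomainRingHom K H.subtype (w i)) ∈ M}
  zero_mem' := by
    change (fun i => mapDomainRingHom K H.subtype ((0 : Fin d → MonoidAlgebra K H) i)) ∈ M
    simp only [Pi.zero_apply, map_zero]
    exact M.zero_mem
  add_mem' := by
    intro a b ha hb
    change (fun i => mapDomainRingHom K H.subtype ((a + b) i)) ∈ M
    simp only [Pi.add_apply, map_add]
    exact M.add_mem ha hb
  smul_mem' := by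
    intro x a ha
    change (fun i => mapDomainRingHom K H.subtype (a i * MulOpposite.unop x)) ∈ M
    simp only [map_mul]
    exact M.smul_mem (MulOpposite.op (mapDomainRingHom K H.subtype (MulOpposite.unop x))) ha

theorem mem_inter {K : Type u} [Field K] {F : Type} [Group F] {d : ℕ}
    (M : Submodule (MonoidAlgebra K F)ᵐᵒᵖ (Fin d → MonoidAlgebra K F)) (H : Subgroup F)
    (w : Fin d → MonoidAlgebra K H) :
    w ∈ inter M H ↔ (fun i => mapDomainRingHom K H.subtype (w i)) ∈ M := Iff.rfl

/-- multiplication by a column -/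
def Lv {R : Type u} [Ring R] {d : ℕ} (v : Fin d → R) : R →ₗ[Rᵐᵒᵖ] (Fin d → R) where
  toFun a := fun i => v i * a
  map_add' a b := by
    funext i
    exact mul_add _ _ _
  map_smul' x a := by
    funext i
    change v i * (a * MulOpposite.unop x) = (v i * a) * MulOpposite.unop x
    rw [mul_assoc]

theorem Lv_apply {R : Type u} [Ring R] {d : ℕ} (v : Fin d → R) (a : R) (i : Fin d) :
    Lv v a i = v i * a := rfl

/-- the image of a right ideal under an independent column is algebraic -/
theorem algebraic_of {R : Type u} [Ring R] {d : ℕ} (v : Fin d → R)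
    (hv : ∀ a : Fin d → R, ∑ i, a i * v i = 0 → ∀ i, a i = 0) (N : Submodule Rᵐᵒᵖ R) (ν : R)
    (hνN : ν ∈ N) (hν : ∀ a, a * ν = 0 → a = 0) : IsAlgebraic (N.map (Lv v)) := by
  classical
  intro P Q hPQ _ hM
  let p : (Fin d → R) →ₗ[Rᵐᵒᵖ] (Fin d → R) := LinearMap.id - P.projection Q hPQ
  have hp : ∀ w ∈ P, p w = 0 := by
    intro w hw
    change w - P.projection Q hPQ w = 0
    rw [Submodule.projection_apply_of_mem_left hPQ hw, sub_self]
  have h1 : p (Lv v ν) = 0 := hp _ (hM (Submodule.mem_map_of_mem hνN))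
  have h2 : Lv v ν = (MulOpposite.op ν) • v := rfl
  have h3 : p v = 0 := by
    funext i
    apply hν
    rw [h2, map_smul] at h1
    exact congrFun h1 i
  have h4 : v = ∑ j, (MulOpposite.op (v j)) • (Pi.single j (1 : R) : Fin d → R) := by
    funext i
    rw [Finset.sum_apply, Finset.sum_eq_single i]
    · change v i = (Pi.single i (1 : R) : Fin d → R) i * v i
      rw [Pi.single_eq_same, one_mul]
    · intro j _ hj
      change (Pi.single j (1 : R) : Fin d → R) i * v j = 0
      rw [Pi.single_eq_of_ne (Ne.symm hj), zero_mul]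
    · intro h
      exact absurd (Finset.mem_univ _) h
  have h5 : ∀ i j, p (Pi.single j 1) i = 0 := by
    intro i
    apply hv
    rw [h4, map_sum] at h3
    have h6 := congrFun h3 i
    rw [Finset.sum_apply] at h6
    simp only [map_smul] at h6
    exact h6
  have h6 : ∀ w, p w = 0 := by
    intro w
    have h4' : w = ∑ j, (MulOpposite.op (w j)) • (Pi.single j (1 : R) : Fin d → R) := by
      funext i
      rw [Finset.sum_apply, Finset.sum_eq_single i]
      · change w i = (Pi.single i (1 : R) : Fin d → R) i * w i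
        rw [Pi.single_eq_same, one_mul]
      · intro j _ hj
        change (Pi.single j (1 : R) : Fin d → R) i * w j = 0
        rw [Pi.single_eq_of_ne (Ne.symm hj), zero_mul]
      · intro h
        exact absurd (Finset.mem_univ _) h
    rw [h4', map_sum]
    refine Finset.sum_eq_zero fun j _ => ?_
    rw [map_smul]
    have : p (Pi.single j 1) = 0 := funext fun i => h5 i j
    rw [this, smul_zero]
  rw [eq_top_iff]
  intro w _
  have h7 : w - P.projection Q hPQ w = 0 := h6 w
  rw [sub_eq_zero.1 h7]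
  exact Submodule.projection_apply_mem hPQ w

theorem Lv_injective {R : Type u} [Ring R] {d : ℕ} (v : Fin d → R) (i : Fin d)
    (h : ∀ a, v i * a = 0 → a = 0) : Function.Injective (Lv v) := by
  rw [injective_iff_map_eq_zero]
  intro a ha
  exact h a (congrFun ha i)

section

variable (K : Type u) [Field K]

/-- the column over `K[F]` -/
def vF (d : ℕ) : Fin d → MonoidAlgebra K F :=
  fun i => (single y 1 - 1) * (single (z 1) 1 - 1) ^ (i : ℕ)

/-- the column over `K[H]` -/
def vH (r : ℕ) (hr : 2 ≤ r) (d : ℕ) : Fin d → MonoidAlgebra K (H r) :=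
  fun i => (single (⟨z 0, z_mem r ⟨0, by omega⟩⟩ : H r) 1 - 1) *
    (single (⟨z 1, z_mem r ⟨1, by omega⟩⟩ : H r) 1 - 1) ^ (i : ℕ)

/-- the inclusion of group algebras -/
abbrev inc (r : ℕ) : MonoidAlgebra K (H r) →+* MonoidAlgebra K F :=
  mapDomainRingHom K (H r).subtype

theorem inc_single (r : ℕ) (h : H r) (c : K) : inc K r (single h c) = single (h : F) c :=
  mapDomain_single

theorem inc_injective (r : ℕ) : Function.Injective (inc K r) :=
  mapDomain_injective Subtype.val_injective

theorem inc_vH (r : ℕ) (hr : 2 ≤ r) (d : ℕ) (i : Fin d) : inc K r (vH K r hr d i) = vF K d i := by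
  unfold vH vF
  rw [map_mul, map_pow, map_sub, map_sub, map_one, inc_single, inc_single]
  change (single (z 0) 1 - 1) * _ = _
  rw [z_zero]

theorem left_inj (a : MonoidAlgebra K F) (h : (single y 1 - 1) * a = 0) : a = 0 := by
  have h1 := mem_of_mul a y (inj_of_deg _ deg_y) (Subgroup.zpowers y)
    (Subgroup.mem_zpowers y) (fun g _ => by rw [h]; rfl)
  -- use the trivial argument on every coset: all coefficients vanish
  rw [← coeff_eq_zero]
  ext g
  have h2 : ∀ g, a.coeff (y⁻¹ * g) = a.coeff g := by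
    intro g
    have h3 : ((single y 1 - 1) * a).coeff g = 0 := by rw [h]; rfl
    rw [sub_mul, one_mul, coeff_sub, Finsupp.sub_apply, coeff_single_mul_apply, one_mul,
      sub_eq_zero] at h3
    exact h3
  have h3 : ∀ n : ℕ, a.coeff ((y⁻¹) ^ n * g) = a.coeff g := by
    intro n
    induction n with
    | zero => simp
    | succ n ih => rw [pow_succ', mul_assoc, h2, ih]
  have h4 := finite_aux a (fun n => (y⁻¹) ^ n * g) (fun m n hmn => by
    have h4 : (y⁻¹) ^ m = (y⁻¹) ^ n := mul_right_cancel hmn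
    rw [inv_pow, inv_pow, inv_inj] at h4
    exact inj_of_deg _ deg_y h4) (fun n => by rw [h3, h3])
  rw [h3] at h4
  exact h4

theorem mem_range (r : ℕ) (hr : 1 ≤ r) (a : MonoidAlgebra K F) (w : MonoidAlgebra K (H r))
    (h : (single y 1 - 1) * a = inc K r w) : ∃ b, inc K r b = a := by
  have hyH : y ∈ H r := by
    rw [← z_zero]
    exact z_mem r ⟨0, by omega⟩
  have h1 := mem_of_mul a y (inj_of_deg _ deg_y) (H r) hyH (by
    intro g hg
    rw [h]
    change Finsupp.mapDomain _ w.coeff g = 0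
    apply Finsupp.mapDomain_notin_range
    rintro ⟨h', rfl⟩
    exact hg h'.2)
  refine ⟨comapDomain (Subtype.val : H r → F) Subtype.val_injective a, ?_⟩
  apply mapDomain_comapDomain
  intro g hg
  rw [Finset.mem_coe, Finsupp.mem_support_iff] at hg
  by_contra hcon
  apply hg
  apply h1
  intro hg'
  exact hcon ⟨⟨g, hg'⟩, rfl⟩

/-- the comparison of intersections -/
theorem inter_map (r : ℕ) (hr : 2 ≤ r) (d : ℕ) (hd : 1 ≤ d)
    (N : Submodule (MonoidAlgebra K F)ᵐᵒᵖ (MonoidAlgebra K F))
    (N' : Submodule (MonoidAlgebra K (H r))ᵐᵒᵖ (MonoidAlgebra K (H r)))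
    (hN : ∀ a, a ∈ N' ↔ inc K r a ∈ N) :
    inter (N.map (Lv (vF K d))) (H r) = N'.map (Lv (vH K r hr d)) := by
  apply le_antisymm
  · intro w hw
    rw [mem_inter] at hw
    obtain ⟨ν, hν, hw⟩ := hw
    have h0 := congrFun hw ⟨0, hd⟩
    rw [Lv_apply] at h0
    have h1 : vF K d ⟨0, hd⟩ = single y 1 - 1 := by
      unfold vF
      rw [pow_zero, mul_one]
    rw [h1] at h0
    obtain ⟨a, ha⟩ := mem_range K r (by omega) ν _ h0
    refine ⟨a, (hN a).2 (by rw [ha]; exact hν), ?_⟩
    funext i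
    apply inc_injective K r
    rw [Lv_apply, map_mul, inc_vH, ha]
    exact congrFun hw i
  · rintro _ ⟨a, ha, rfl⟩
    rw [mem_inter]
    refine ⟨inc K r a, (hN a).1 ha, ?_⟩
    funext i
    rw [Lv_apply, Lv_apply, map_mul, inc_vH]

/-- the family of examples -/
theorem family (r : ℕ) (hr : 2 ≤ r) (d : ℕ) (hd : 1 ≤ d) (m m' : ℕ)
    (N : Submodule (MonoidAlgebra K F)ᵐᵒᵖ (MonoidAlgebra K F))
    (N' : Submodule (MonoidAlgebra K (H r))ᵐᵒᵖ (MonoidAlgebra K (H r)))
    (hN : ∀ a, a ∈ N' ↔ inc K r a ∈ N) (ν : MonoidAlgebra K F) (hνN : ν ∈ N)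
    (hν : ∀ a, a * ν = 0 → a = 0)
    (b : Module.Basis (Fin m) (MonoidAlgebra K F)ᵐᵒᵖ N)
    (b' : Module.Basis (Fin m') (MonoidAlgebra K (H r))ᵐᵒᵖ N') :
    ∃ M : Submodule (MonoidAlgebra K F)ᵐᵒᵖ (Fin d → MonoidAlgebra K F),
      IsAlgebraic M ∧ HasRank (MonoidAlgebra K F)ᵐᵒᵖ M m ∧
      HasRank (MonoidAlgebra K (H r))ᵐᵒᵖ (inter M (H r)) m' := by
  have hv0 : vF K d ⟨0, hd⟩ = single y 1 - 1 := by
    unfold vF
    rw [pow_zero, mul_one]
  have hinj : Function.Injective (Lv (vF K d)) :=
    Lv_injective _ ⟨0, hd⟩ (fun a ha => left_inj K a (by rwa [hv0] at ha))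
  have hinj' : Function.Injective (Lv (vH K r hr d)) := by
    apply Lv_injective _ ⟨0, hd⟩
    intro a ha
    apply inc_injective K r
    rw [map_zero]
    apply left_inj K
    rw [← hv0, ← inc_vH K r hr, ← map_mul, ha, map_zero]
  refine ⟨N.map (Lv (vF K d)), algebraic_of _ (indep' K d) N ν hνN hν, ?_, ?_⟩
  · exact ⟨b.map (Submodule.equivMapOfInjective _ hinj N)⟩
  · rw [inter_map K r hr d hd N N' hN]
    exact ⟨b'.map (Submodule.equivMapOfInjective _ hinj' N')⟩

/-- the whole ring has rank one -/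
theorem top_basis (R : Type u) [Ring R] :
    Nonempty (Module.Basis (Fin 1) Rᵐᵒᵖ (⊤ : Submodule Rᵐᵒᵖ R)) := by
  let e : R ≃ₗ[Rᵐᵒᵖ] (Fin 1 → Rᵐᵒᵖ) :=
    { toFun := fun a _ => MulOpposite.op a
      map_add' := fun a b => rfl
      map_smul' := fun x a => rfl
      invFun := fun f => MulOpposite.unop (f 0)
      left_inv := fun a => rfl
      right_inv := fun f => by
        funext i
        rw [Subsingleton.elim i 0]
        rfl }
  exact ⟨Module.Basis.ofEquivFun ((Submodule.topEquiv).trans e)⟩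

/-- For every field `K`, every `d ≥ 2`, every `m ≥ 1` and every `r ≥ 3` the free group of rank two
has a subgroup `H` which is free of rank `r`, such that some algebraic right submodule `M` of
`K[F] ^ d` of rank `m` meets `K[H] ^ d` in a submodule of rank `1 + (m - 1) (r - 1)`, which exceeds
the conjectured bound. -/
theorem result (K : Type u) [Field K] (d m r : ℕ) (hd : 2 ≤ d) (hm : 1 ≤ m) (hr : 3 ≤ r) :
    ∃ (H : Subgroup (FreeGroup (Fin 2)))
      (M : Submodule (MonoidAlgebra K (FreeGroup (Fin 2)))ᵐᵒᵖ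
        (Fin d → MonoidAlgebra K (FreeGroup (Fin 2)))) (m' : ℕ),
      Nonempty (FreeGroupBasis (Fin r) H) ∧
      IsAlgebraic M ∧
      HasRank (MonoidAlgebra K (FreeGroup (Fin 2)))ᵐᵒᵖ M m ∧
      HasRank (MonoidAlgebra K H)ᵐᵒᵖ (inter M H) m' ∧
      m' = 1 + (m - 1) * (r - 1) ∧
      ((m : ℚ) / d - 1) * ((r : ℚ) - 1) < (m' : ℚ) / d - 1 := by
  have key : ∃ M : Submodule (MonoidAlgebra K F)ᵐᵒᵖ (Fin d → MonoidAlgebra K F),
      IsAlgebraic M ∧ HasRank (MonoidAlgebra K F)ᵐᵒᵖ M m ∧
      HasRank (MonoidAlgebra K (H r))ᵐᵒᵖ (inter M (H r)) (1 + (m - 1) * (r - 1)) := by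
    rcases Nat.eq_or_lt_of_le hm with hm1 | hm2
    · subst hm1
      obtain ⟨b⟩ := top_basis (MonoidAlgebra K F)
      obtain ⟨b'⟩ := top_basis (MonoidAlgebra K (H r))
      have h1 : 1 + (1 - 1) * (r - 1) = 1 := by omega
      rw [h1]
      exact family K r (by omega) d (by omega) 1 1 ⊤ ⊤ (fun a => by simp) 1 trivial
        (fun a ha => by rwa [mul_one] at ha) b b'
    · obtain ⟨c, rfl⟩ : ∃ c, m = c + 1 := ⟨m - 1, by omega⟩
      obtain ⟨s, rfl⟩ : ∃ s, r = s + 1 := ⟨r - 1, by omega⟩
      have hc : NeZero c := ⟨by omega⟩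
      let π : F →* Multiplicative (ZMod c) := FreeGroup.lift fun _ => Multiplicative.ofAdd 1
      have hπ : ∀ k : Fin 2, π (FreeGroup.of k) = Multiplicative.ofAdd 1 := by
        intro k
        exact FreeGroup.lift_apply_of
      have hπy : π y = Multiplicative.ofAdd 1 := hπ 1
      have hπz : ∀ k, π (z k) = Multiplicative.ofAdd 1 := by
        intro k
        unfold z
        rw [map_mul, map_mul, map_inv, mul_comm (π (x ^ k)), mul_inv_cancel_right, hπy]
      let π' : H (s + 1) →* Multiplicative (ZMod c) := π.comp (H (s + 1)).subtype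
      have hπ' : ∀ k : Fin (s + 1), π' (bH (s + 1) k) = Multiplicative.ofAdd 1 := by
        intro k
        change π ((bH (s + 1) k : H (s + 1)) : F) = _
        rw [bH_apply, hπz]
      obtain ⟨b⟩ := ker_basis K π (FreeGroupBasis.ofFreeGroup (Fin 2)) hπ
      obtain ⟨b'⟩ := ker_basis K π' (bH (s + 1)) hπ'
      have h1 : 1 + c * 1 = c + 1 := by omega
      have h2 : 1 + (c + 1 - 1) * (s + 1 - 1) = 1 + c * s := by simp
      rw [h2, ← h1]
      refine family K (s + 1) (by omega) d (by omega) _ _ (kerN K π) (kerN K π') ?_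
        (single (y ^ c) 1 - 1) ?_ ?_ b b'
      · intro a
        rw [mem_kerN, mem_kerN]
        have h3 : pb K π' a = pb K π (inc K (s + 1) a) := by
          have := mapDomainRingHom_comp (R := K) π (H (s + 1)).subtype
          exact DFunLike.congr_fun this a
        rw [h3]
      · rw [mem_kerN, map_sub, map_one, pb_single, map_pow, hπy, ← ofAdd_nsmul, nsmul_eq_mul,
          mul_one, ZMod.natCast_self]
        exact sub_self _
      · intro a ha
        refine eq_zero_of_mul_sub a (y ^ c) ?_ ha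
        intro p q hpq
        have h3 : y ^ (c * p) = y ^ (c * q) := by
          rw [pow_mul, pow_mul]
          exact hpq
        have h4 : c * p = c * q := inj_of_deg _ deg_y h3
        exact Nat.eq_of_mul_eq_mul_left (by omega) h4
  obtain ⟨M, hM1, hM2, hM3⟩ := key
  refine ⟨H r, M, _, ⟨bH r⟩, hM1, hM2, hM3, rfl, ?_⟩
  obtain ⟨c, rfl⟩ : ∃ c, m = c + 1 := ⟨m - 1, by omega⟩
  obtain ⟨s, rfl⟩ : ∃ s, r = s + 1 := ⟨r - 1, by omega⟩
  have hd0 : (0 : ℚ) < d := by
    have : 0 < d := by omega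
    exact_mod_cast this
  have h1 : (((1 + (c + 1 - 1) * (s + 1 - 1) : ℕ) : ℚ)) / d - 1 -
      (((c + 1 : ℕ) : ℚ) / d - 1) * (((s + 1 : ℕ) : ℚ) - 1) = ((d : ℚ) - 1) * (s - 1) / d := by
    simp only [Nat.add_sub_cancel]
    push_cast
    field_simp
    ring
  have h2 : (0 : ℚ) < ((d : ℚ) - 1) * (s - 1) / d := by
    apply div_pos _ hd0
    apply mul_pos
    · have : (2 : ℚ) ≤ d := by exact_mod_cast hd
      linarith
    · have : (2 : ℚ) ≤ s := by
        have : 2 ≤ s := by omega
        exact_mod_cast this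
      linarith
  linarith

end

end

end Pool.Agent.Results.MP_6883a6_al.RankFormula
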